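import Pool.Agent.H487.K.Four
import Pool.Agent.H487.K.Grp
import Pool.Agent.H487.G.An4
import Pool.Agent.H487.G.Inf
import Pool.Agent.Y809.BSD14.E0
import Pool.Agent.Y809.BSD14.Tam1

/-!
# The 2-part of the leading-term formula with a NONTRIVIAL `Ш[2^∞]` for infinitely many quadratic twists of
# the non-CM curve `X_0(15)`

`E_D` is the quadratic twist by `D` of `X_0(15) : y² + x y + y = x³ + x² - 10 x - 10`, which has no complex
multiplication.  Let `D > 1` be squarefree with all its prime factors `≡ 1` or `49` modulo `60`, i.e. `-1`,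
`3` and `5` are squares modulo all of them (the class `Family`).  For such a `D` the 2-Selmer group of `E_D`
is never the image of the torsion subgroup, so that the results by a first descent say nothing.

(1) For ALL `D` of the class, `z = L(E_D, 1) #E_D(ℚ)_tors² / (Ω ∏ c_p) = w y²` with integers `w`, `y`, `w` odd and
    `y` EVEN, and `y ≡ 2` modulo `4` if and only if `Ker D` and `Golden D`:
* `Ker D`: the only divisors `d` of `D` with `(d/p) = 1` for the primes `p ∣ D/d` and `((D/d)/p) = 1` for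
  the primes `p ∣ d` are `1` and `D` (the graph on the prime factors of `D`, in which `p`, `q` are joined
  if `(p/q) = -1`, has an odd number of spanning trees), and
* `Golden D`: the number of the prime factors `p` of `D` such that the golden ratio is not a square modulo
  `p` (equivalently, `X⁴ - X² - 1` has no root modulo `p`) is odd.
(2) If `Ker D` and `Golden D`, then `L(E_D, 1) ≠ 0`, `E_D(ℚ)` is finite, `Ш(E_D/ℚ)[2^∞] ≅ (ℤ/2)²` and the
    2-part of the leading-term formula holds: `L(E_D, 1) / Ω` is a rational number with the same power of two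
    as `#Ш ∏ c_p / #E_D(ℚ)_tors²` (with `Ш[2^∞]` for `Ш` if one does not assume that `Ш` is finite).
(3) For each `k ≥ 2` there are infinitely many such `D` with exactly `k` prime factors.

Proof.  Analytic side (`Pool.Agent.H757_X15`, joint work of many helpers led by helper757, and
`Pool.Agent.H487.G`): the algebraic part of `L(E_D, 1)` is the square of a Gross sum, which is compared with
geodesic cycles of discriminant `D` on `X_0(15)` and summed over the genus characters, and computed modulo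
the next power of two by means of the fundamental unit of `ℚ(√D)`.  Algebraic side (`Pool.Agent.H487.K`):
`E_D ≅ (y² = x (x - 16 D) (x + 9 D))` is 2-isogenous to `E' : y² = x (x² + 14 D x + 625 D²)`, which has one
rational point of order two; a complete 2-descent on `E'`, a second descent over `ℚ(i)`, gives
`Ш(E'/ℚ)[2] = 0`, so that `Ш(E_D/ℚ)[2^∞]` is killed by two; a first descent gives at most four elements, and
the classes of `5` and `D` in the Selmer group of the isogeny are independent.  The local conditions and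
the cocycles are due to helper135, helper357, helper924, helper34, helper837, helper498, helper902,
helper421, helper229, helper57, helper732.
-/

set_option autoImplicit false
set_option linter.style.haveILetI false

open WeierstrassCurve MeasureTheory Filter Topology

namespace Pool.Agent.Results.MP_92892c_nt.TwoPartShaX15

open scoped Classical

open Pool.Agent.TH841.SH.D (Sha)

/-- The quadratic twist `E_D` of `X_0(15)` by `D ≡ 1` modulo `4`:
`y² + x y + y = x³ + ((5 D - 1)/4) x² - ((19 D² + 1)/2) x - (39 D³ + 1)/4`.  For `D = 1` this is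
`y² + x y + y = x³ + x² - 10 x - 10`. -/
def twist (D : ℤ) : WeierstrassCurve ℤ :=
  ⟨1, (5 * D - 1) / 4, 1, -((19 * D ^ 2 + 1) / 2), -((39 * D ^ 3 + 1) / 4)⟩

/-- The curve given by the equation of `W` over the ring `R`. -/
abbrev base (W : WeierstrassCurve ℤ) (R : Type) [CommRing R] : WeierstrassCurve R :=
  W.map (Int.castRingHom R)

/-- `W` is a global minimal equation: `Δ ≠ 0` and `|Δ|` is minimal among the integral equations of the
same curve over `ℚ`. -/
def Minimal (W : WeierstrassCurve ℤ) : Prop :=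
  W.Δ ≠ 0 ∧ ∀ (W' : WeierstrassCurve ℤ) (C : VariableChange ℚ), C • base W ℚ = base W' ℚ →
    |W.Δ| ≤ |W'.Δ|

/-- The number of the affine points modulo `p`. -/
noncomputable def pts (W : WeierstrassCurve ℤ) (p : ℕ) : ℕ :=
  Nat.card {P : ZMod p × ZMod p // (base W (ZMod p)).toAffine.Equation P.1 P.2}

/-- `a_p = p + 1 - #W(𝔽_p)`, the points counted with the point at infinity. -/
noncomputable def a (W : WeierstrassCurve ℤ) (p : ℕ) : ℤ := p - pts W p

/-- `L` is the L-function of the minimal equation `W`: it is entire, and for `Re s > 3/2` it is given by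
the Euler product with the factors `(1 - a_p p^(-s) + p^(1 - 2 s))⁻¹` if `p` does not divide `Δ` and
`(1 - a_p p^(-s))⁻¹` otherwise. -/
def IsL (W : WeierstrassCurve ℤ) (L : ℂ → ℂ) : Prop :=
  Differentiable ℂ L ∧ ∀ s : ℂ, 3 / 2 < s.re →
    HasProd (fun p : Nat.Primes => (1 - (a W p : ℂ) * ((p : ℕ) : ℂ) ^ (-s) +
      (if ((p : ℕ) : ℤ) ∣ W.Δ then 0 else ((p : ℕ) : ℂ) ^ (1 - 2 * s)))⁻¹) (L s)

/-- The point `P` of `W` over `ℚ_p` reduces to a singular point of the curve modulo `p`: the coordinates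
are integral and both partial derivatives of `y² + a₁ x y + a₃ y - x³ - a₂ x² - a₄ x - a₆` are in the
maximal ideal. -/
def SingularReduction (W : WeierstrassCurve ℤ) (p : ℕ) [Fact p.Prime]
    (P : (base W ℚ_[p]).toAffine.Point) : Prop :=
  ∃ x y h, P = Affine.Point.some x y h ∧ ‖x‖ ≤ 1 ∧ ‖y‖ ≤ 1 ∧
    ‖W.a₁ * y - (3 * x ^ 2 + 2 * W.a₂ * x + W.a₄)‖ < 1 ∧ ‖2 * y + W.a₁ * x + W.a₃‖ < 1

/-- `c p` is the Tamagawa number `[W(ℚ_p) : W⁰(ℚ_p)]` for all primes `p`, where `W⁰(ℚ_p)` is the subgroup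
of the points which do not have singular reduction; it is `1` if `p` does not divide `Δ`. -/
def IsTamagawa (W : WeierstrassCurve ℤ) (c : ℕ → ℕ) : Prop :=
  ∀ (p : ℕ) [Fact p.Prime], (∃ H : AddSubgroup (base W ℚ_[p]).toAffine.Point,
    (∀ P, P ∈ H ↔ ¬ SingularReduction W p P) ∧ H.index = c p) ∧ (¬ (p : ℤ) ∣ W.Δ → c p = 1)

/-- The product of the Tamagawa numbers. -/
noncomputable def Tam (W : WeierstrassCurve ℤ) (c : ℕ → ℕ) : ℕ := ∏ p ∈ W.Δ.natAbs.primeFactors, c p

/-- `4 x³ + b₂ x² + 2 b₄ x + b₆ = (2 y + a₁ x + a₃)²`. -/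
def cubic (W : WeierstrassCurve ℤ) (x : ℝ) : ℝ := 4 * x ^ 3 + W.b₂ * x ^ 2 + 2 * W.b₄ * x + W.b₆

/-- `Ω = ∫_{W(ℝ)} |ω|` with `ω = dx / (2 y + a₁ x + a₃)`, as an integral over `x`: two real points lie
over each `x` with `cubic x > 0`. -/
noncomputable def Omega (W : WeierstrassCurve ℤ) : ℝ :=
  2 * ∫ x in {x : ℝ | 0 < cubic W x}, 1 / √(cubic W x)

/-- The order of the torsion subgroup of `W(ℚ)`. -/
noncomputable def torsOrder (W : WeierstrassCurve ℤ) : ℕ :=
  Nat.card (AddCommGroup.torsion (base W ℚ).toAffine.Point)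

/-- `D > 1` is squarefree and all its prime factors are `1` or `49` modulo `60` -/
def Family (D : ℕ) : Prop :=
  1 < D ∧ Squarefree D ∧ ∀ p : ℕ, p.Prime → p ∣ D → p % 60 = 1 ∨ p % 60 = 49

/-- the only divisors `d` of `D` with `(d/p) = 1` for all primes `p ∣ D/d` and `((D/d)/p) = 1` for all
primes `p ∣ d` are `1` and `D` -/
def Ker (D : ℕ) : Prop := ∀ d : ℕ, d ∣ D →
  (∀ p : ℕ, p.Prime → p ∣ D → ¬ p ∣ d → jacobiSym d p = 1) →
  (∀ p : ℕ, p.Prime → p ∣ d → jacobiSym ((D / d : ℕ) : ℤ) p = 1) → d = 1 ∨ d = D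

/-- the number of the prime factors `p` of `D` such that `X⁴ - X² - 1` has no root modulo `p` is odd -/
def Golden (D : ℕ) : Prop :=
  Odd (Nat.card {p : ℕ // p.Prime ∧ p ∣ D ∧ ¬ ∃ x : ZMod p, x ^ 4 = x ^ 2 + 1})

/-- The formula for `D` of the class up to the order of `Ш`, and the exact criterion for the smallest power of
two: `W = E_D` is minimal, `L(W, s)` is entire, `∏ c_p = 2 ^ (2 k + 3)`, `#W(ℚ)_tors` is four times an odd number,
and `L(W, 1) / Ω` is `w y² ∏ c_p / #W(ℚ)_tors²` with integers `w`, `y`, `w` odd, `y` even, and `y ≡ 2` modulo `4` iff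
`Ker D` and `Golden D`. -/
def Analytic (D : ℕ) : Prop :=
  Minimal (twist D) ∧ ∃ (L : ℂ → ℂ) (c : ℕ → ℕ) (w y : ℤ), IsL (twist D) L ∧ IsTamagawa (twist D) c ∧
    Tam (twist D) c = 2 ^ (2 * D.primeFactors.card + 3) ∧
    (∃ t : ℕ, Odd t ∧ torsOrder (twist D) = 4 * t) ∧ 0 < Omega (twist D) ∧ Odd w ∧ Even y ∧
    (y % 4 = 2 ↔ Ker D ∧ Golden D) ∧
    L 1 / (Omega (twist D) : ℝ) = w * y ^ 2 * (Tam (twist D) c : ℂ) / (torsOrder (twist D) : ℂ) ^ 2

/-- The 2-part of the leading-term formula for `W` in rank zero, with `Ш(W/ℚ)[2^∞] ≅ (ℤ/2)²`: `W` is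
minimal, `W(ℚ)` is finite, the elements of `2`-power order of `Ш(W/ℚ)` are killed by two and there are exactly
four of them, `L(W, s)` is entire, `L(W, 1) ≠ 0`, and `L(W, 1) / Ω` is a rational number `z ≠ 0` with the same
power of two as `#Ш(W/ℚ)[2^∞] ∏ c_p / #W(ℚ)_tors²`; if `Ш(W/ℚ)` is finite, with the same power of two as
`#Ш(W/ℚ) ∏ c_p / #W(ℚ)_tors²`. -/
def TwoPartSha (W : WeierstrassCurve ℤ) : Prop :=
  Minimal W ∧ Finite (base W ℚ).toAffine.Point ∧
  (∀ (n : ℕ) (x : Sha (base W ℚ)), 2 ^ n • x = 0 → 2 • x = 0) ∧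
  Nat.card {x : Sha (base W ℚ) // ∃ n : ℕ, 2 ^ n • x = 0} = 4 ∧
  ∃ (L : ℂ → ℂ) (c : ℕ → ℕ) (z : ℚ), IsL W L ∧ L 1 ≠ 0 ∧ IsTamagawa W c ∧ 0 < Tam W c ∧
    0 < Omega W ∧ 0 < torsOrder W ∧ L 1 / (Omega W : ℝ) = z ∧ z ≠ 0 ∧
    padicValRat 2 z = padicValRat 2 ((Nat.card {x : Sha (base W ℚ) // ∃ n : ℕ, 2 ^ n • x = 0} : ℚ) *
      Tam W c / (torsOrder W : ℚ) ^ 2) ∧
    (Finite (Sha (base W ℚ)) → padicValRat 2 z =
      padicValRat 2 ((Nat.card (Sha (base W ℚ)) : ℚ) * Tam W c / (torsOrder W : ℚ) ^ 2))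

section proof

open Pool.Agent.H757_X15 (WD)
open Pool.Agent.H487.G (Fam Gp gN)

theorem fam_iff {D : ℕ} : Family D ↔ Fam D := ⟨fun h => ⟨h.1, h.2.1, h.2.2⟩, fun h => ⟨h.gt, h.sq, h.pr⟩⟩

theorem golden_iff {D : ℕ} (hD0 : D ≠ 0) : Golden D ↔ Odd (gN D) := by
  unfold Golden gN
  have e : Nat.card {p : ℕ // p.Prime ∧ p ∣ D ∧ ¬ ∃ x : ZMod p, x ^ 4 = x ^ 2 + 1} =
      (D.primeFactors.filter fun p => ¬ Gp p).card := by
    rw [← Fintype.card_coe, ← Nat.card_eq_fintype_card]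
    refine Nat.card_congr (Equiv.subtypeEquivRight fun p => ?_)
    rw [Finset.mem_filter, Nat.mem_primeFactors]
    unfold Gp
    constructor
    · rintro ⟨h1, h2, h3⟩
      exact ⟨⟨h1, h2, hD0⟩, h3⟩
    · rintro ⟨⟨h1, h2, -⟩, h3⟩
      exact ⟨h1, h2, h3⟩
  rw [e]

lemma twist_eq (D : ℤ) : twist D = WD D := rfl

lemma omega_eq (W : WeierstrassCurve ℤ) : Omega W = Pool.Agent.Y700.Omega W := by
  unfold Omega Pool.Agent.Y700.Omega
  rw [← integral_const_mul]
  show ∫ x in {x : ℝ | 0 < Pool.Agent.Y700.psi W x}, 2 * (1 / √(Pool.Agent.Y700.psi W x)) = _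
  congr 1
  funext x
  rw [mul_one_div]

/-- the Tamagawa numbers -/
noncomputable def cT (W : WeierstrassCurve ℤ) (p : ℕ) : ℕ :=
  if h : p.Prime then (haveI := Fact.mk h; Pool.Agent.Y700.tam W p) else 1

lemma isTam (W : WeierstrassCurve ℤ) : IsTamagawa W (cT W) := by
  intro p hp
  have hc : cT W p = Pool.Agent.Y700.tam W p := by
    unfold cT
    rw [dif_pos hp.out]
  refine ⟨⟨Pool.Agent.Y700.E0 W p, fun P => ?_, by rw [hc]; rfl⟩, fun h => ?_⟩
  · rw [Pool.Agent.Y809.BSD14.t_E0 W p P]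
    constructor
    · rintro h ⟨x, y, h1, rfl, h2⟩
      exact h x y h1 rfl h2
    · intro h x y h1 h2 h3
      exact h ⟨x, y, h1, h2, h3⟩
  · rw [hc]
    exact Pool.Agent.Y809.BSD14.t_TGOOD W p h

/-- everything about the central value -/
theorem core {D : ℕ} (hF : Family D) : Minimal (twist D) ∧
    ∃ (L : ℂ → ℂ) (w y : ℤ), IsL (twist D) L ∧ Tam (twist D) (cT (twist D)) = 2 ^ (2 * D.primeFactors.card + 3) ∧
    (∃ t : ℕ, Odd t ∧ torsOrder (twist D) = 4 * t) ∧ 0 < Omega (twist D) ∧ Odd w ∧ Even y ∧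
    (y % 4 = 2 ↔ Ker D ∧ Golden D) ∧
    L 1 / (Omega (twist D) : ℝ) = w * y ^ 2 * (Tam (twist D) (cT (twist D)) : ℂ) / (torsOrder (twist D) : ℂ) ^ 2 := by
  have hD : Fam D := fam_iff.1 hF
  have hD0 : D ≠ 0 := by have := hD.gt; omega
  obtain ⟨s, hs⟩ := hD.exists_s
  obtain ⟨f1, f2, f3, ⟨k, hk, f4⟩, -, -, -⟩ := Pool.Agent.H757_X15.EE.t_FULL D hD.sq hD.mod
    (by have := hD.gt; omega)
  obtain ⟨f, w, y, hf, hw, hy, hyc, hv⟩ := Pool.Agent.H487.G.full2 hD hs
  have hto : torsOrder (twist D) = 4 * k := f4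
  have hT : Tam (twist D) (cT (twist D)) = 2 ^ (2 * D.primeFactors.card + 3) := f2
  have hΩ : 0 < Omega (twist D) := by rw [omega_eq]; exact f3
  refine ⟨f1, f, w, y, hf, hT, ⟨k, hk, hto⟩, hΩ, hw, hy, ?_, ?_⟩
  · rw [hyc]
    refine and_congr Iff.rfl ?_
    rw [golden_iff hD0]
    exact Pool.Agent.H487.G.gold_iff hD hs
  · have hv' : f 1 * (torsOrder (twist D) : ℂ) ^ 2 / ((Omega (twist D) : ℝ) *
        (Tam (twist D) (cT (twist D)) : ℂ)) = w * y ^ 2 := by
      rw [omega_eq]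
      exact hv
    have h1 : ((Omega (twist D) : ℝ) : ℂ) ≠ 0 := by exact_mod_cast hΩ.ne'
    have h2 : (torsOrder (twist D) : ℂ) ≠ 0 := by
      rw [hto]
      have := hk.pos
      exact_mod_cast (by omega : 4 * k ≠ 0)
    have h3 : (Tam (twist D) (cT (twist D)) : ℂ) ≠ 0 := by
      rw [hT]
      exact_mod_cast (by positivity : (2 ^ (2 * D.primeFactors.card + 3) : ℕ) ≠ 0)
    rw [← hv']
    field_simp

theorem analytic {D : ℕ} (hF : Family D) : Analytic D := by
  obtain ⟨h1, L, w, y, h2, h3, h4, h5, h6, h7, h8, h9⟩ := core hF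
  exact ⟨h1, L, _, w, y, h2, isTam _, h3, h4, h5, h6, h7, h8, h9⟩

lemma odd_val {n : ℤ} (hn : Odd n) : padicValRat 2 (n : ℚ) = 0 := by
  rw [padicValRat.of_int]
  have : padicValInt 2 n = 0 := by
    refine padicValInt.eq_zero_of_not_dvd ?_
    intro hd
    have h5 := Int.odd_iff.1 hn
    omega
  rw [this]
  rfl

theorem twoPart {D : ℕ} (hF : Family D) (hK : Ker D) (hG : Golden D) : TwoPartSha (twist D) := by
  have hD : Fam D := fam_iff.1 hF
  have hD0 : D ≠ 0 := by have := hD.gt; omega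
  obtain ⟨s, hs⟩ := hD.exists_s
  have hσ := (Pool.Agent.H487.G.gold_iff hD hs).2 ((golden_iff hD0).1 hG)
  obtain ⟨g1, g2⟩ := Pool.Agent.H487.K.sha_EQ4 hD hK hs hσ
  obtain ⟨h1, L, w, y, h2, h3, ⟨t, ht, h4⟩, h5, hw, hye, h8, h9⟩ := core hF
  have hfin : Finite (base (twist D) ℚ).toAffine.Point := Pool.Agent.H487.G.fin_EQ hD hK hs hσ
  haveI : Fact (Nat.Prime 2) := ⟨Nat.prime_two⟩
  have hkill : ∀ (n : ℕ) (x : Sha (base (twist D) ℚ)), 2 ^ n • x = 0 → 2 • x = 0 := by
    intro n x hx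
    exact (two_nsmul x).trans (g1 n x hx)
  have hcard : Nat.card {x : Sha (base (twist D) ℚ) // ∃ n : ℕ, 2 ^ n • x = 0} = 4 := by
    rw [← g2]
    refine Nat.card_congr (Equiv.subtypeEquivRight fun x => ?_)
    constructor
    · rintro ⟨n, hx⟩
      exact g1 n x hx
    · intro hx
      exact ⟨1, by rw [pow_one]; exact (two_nsmul x).trans hx⟩
  have hy2 : y % 4 = 2 := h8.2 ⟨hK, hG⟩
  obtain ⟨r, hr⟩ : ∃ r, y = 2 * (2 * r + 1) := ⟨y / 4, by omega⟩
  set T := Tam (twist D) (cT (twist D)) with hTdef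
  have hT0 : (T : ℚ) ≠ 0 := by rw [h3]; positivity
  have ht0 : (torsOrder (twist D) : ℚ) ≠ 0 := by
    rw [h4]
    have := ht.pos
    exact_mod_cast (by omega : 4 * t ≠ 0)
  have hw0 : (w : ℚ) ≠ 0 := by
    rintro h
    have : w = 0 := by exact_mod_cast h
    rw [this] at hw
    exact absurd hw (by decide)
  have hr0 : ((2 * r + 1 : ℤ) : ℚ) ≠ 0 := by
    intro h
    have : 2 * r + 1 = 0 := by exact_mod_cast h
    omega
  set u : ℚ := (T : ℚ) / (torsOrder (twist D) : ℚ) ^ 2 with hu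
  have hu0 : u ≠ 0 := div_ne_zero hT0 (pow_ne_zero 2 ht0)
  set z : ℚ := (w : ℚ) * (y : ℚ) ^ 2 * (T : ℚ) / (torsOrder (twist D) : ℚ) ^ 2 with hz
  have hzu : z = ((w : ℚ) * ((2 * r + 1 : ℤ) : ℚ) ^ 2) * (4 * u) := by
    rw [hz, hu, hr]
    push_cast
    ring
  have hzval : padicValRat 2 z = padicValRat 2 (4 * u) := by
    rw [hzu, padicValRat.mul (mul_ne_zero hw0 (pow_ne_zero 2 hr0)) (mul_ne_zero (by norm_num) hu0),
      padicValRat.mul hw0 (pow_ne_zero 2 hr0), padicValRat.pow, odd_val hw,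
      odd_val (n := 2 * r + 1) ⟨r, rfl⟩]
    ring
  have hz0 : z ≠ 0 := by
    rw [hzu]
    exact mul_ne_zero (mul_ne_zero hw0 (pow_ne_zero 2 hr0)) (mul_ne_zero (by norm_num) hu0)
  have hLz : L 1 / (Omega (twist D) : ℝ) = (z : ℂ) := by
    rw [h9, hz]; push_cast; rfl
  refine ⟨h1, hfin, hkill, hcard, L, cT (twist D), z, h2, ?_, isTam _, ?_, h5, ?_, hLz, hz0, ?_, ?_⟩
  · intro h0
    rw [h0, zero_div] at hLz
    exact hz0 (by exact_mod_cast hLz.symm)
  · show 0 < T
    rw [h3]; positivity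
  · rw [h4]; have := ht.pos; omega
  · rw [hzval, hcard, hu]
    congr 1
    push_cast
    ring
  · intro hfs
    obtain ⟨k, hk, hkc⟩ := Pool.Agent.H487.K.card_four (G := Sha (base (twist D) ℚ)) g1 g2
    have hkz : Odd ((k : ℤ)) := by exact_mod_cast hk
    have hk0 : ((k : ℤ) : ℚ) ≠ 0 := by
      have := hk.pos
      exact_mod_cast (by omega : k ≠ 0)
    have e : ((Nat.card (Sha (base (twist D) ℚ)) : ℚ) * (T : ℚ) / (torsOrder (twist D) : ℚ) ^ 2) =
        ((k : ℤ) : ℚ) * (4 * u) := by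
      rw [hkc, hu]; push_cast; ring
    show padicValRat 2 z = padicValRat 2
      ((Nat.card (Sha (base (twist D) ℚ)) : ℚ) * (T : ℚ) / (torsOrder (twist D) : ℚ) ^ 2)
    rw [e, padicValRat.mul hk0 (mul_ne_zero (by norm_num) hu0), odd_val hkz, zero_add, hzval]

lemma four_val : padicValRat 2 (4 : ℚ) = 2 := by
  haveI : Fact (Nat.Prime 2) := ⟨Nat.prime_two⟩
  have h : (4 : ℚ) = ((2 : ℕ) : ℚ) ^ 2 := by norm_num
  rw [h, padicValRat.pow, padicValRat.self (by norm_num)]
  norm_num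

/-- the Tamagawa numbers are unique -/
lemma tam_unique {W : WeierstrassCurve ℤ} {c c' : ℕ → ℕ} (h : IsTamagawa W c) (h' : IsTamagawa W c') :
    Tam W c = Tam W c' := by
  unfold Tam
  refine Finset.prod_congr rfl fun p hp => ?_
  haveI : Fact p.Prime := ⟨Nat.prime_of_mem_primeFactors hp⟩
  obtain ⟨⟨H, h1, h2⟩, -⟩ := h p
  obtain ⟨⟨H', h1', h2'⟩, -⟩ := h' p
  have e : H = H' := by
    ext P
    rw [h1, h1']
  rw [← h2, ← h2', e]

/-- the converse: the power of two in the central value decides -/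
theorem conv {D : ℕ} (hF : Family D) (hT : TwoPartSha (twist D)) : Ker D ∧ Golden D := by
  obtain ⟨-, L, w, y, h2, h3, ⟨t, ht, h4⟩, h5, hw, hye, h8, h9⟩ := core hF
  obtain ⟨-, -, -, hcard, L', c', z, g2, -, g3, -, -, -, g4, hz0, g5, -⟩ := hT
  haveI : Fact (Nat.Prime 2) := ⟨Nat.prime_two⟩
  have hL : L' = L := Pool.Agent.Y687.unique_f g2.1 h2.1 g2.2 h2.2
  rw [hL] at g4
  have hTc := tam_unique (isTam (twist D)) g3
  rw [← hTc, hcard] at g5
  set T := Tam (twist D) (cT (twist D)) with hTdef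
  have hT0 : (T : ℚ) ≠ 0 := by rw [h3]; positivity
  have ht0 : (torsOrder (twist D) : ℚ) ≠ 0 := by
    rw [h4]
    have := ht.pos
    exact_mod_cast (by omega : 4 * t ≠ 0)
  have hw0 : (w : ℚ) ≠ 0 := by
    rintro h
    have : w = 0 := by exact_mod_cast h
    rw [this] at hw
    exact absurd hw (by decide)
  set u : ℚ := (T : ℚ) / (torsOrder (twist D) : ℚ) ^ 2 with hu
  have hu0 : u ≠ 0 := div_ne_zero hT0 (pow_ne_zero 2 ht0)
  have hzq : z = (w : ℚ) * (y : ℚ) ^ 2 * u := by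
    have h : (z : ℂ) = (((w : ℚ) * (y : ℚ) ^ 2 * u : ℚ) : ℂ) := by
      rw [← g4, h9, hu]; push_cast; ring
    exact_mod_cast h
  have hval : padicValRat 2 z = 2 + padicValRat 2 u := by
    rw [g5, show ((4 : ℕ) : ℚ) * (T : ℚ) / (torsOrder (twist D) : ℚ) ^ 2 = 4 * u by rw [hu]; push_cast; ring,
      padicValRat.mul (by norm_num) hu0, four_val]
  rw [← h8]
  by_contra hne
  obtain ⟨m, hm⟩ : ∃ m, y = 4 * m := ⟨y / 4, by obtain ⟨r, hr⟩ := hye; omega⟩
  have hm0 : (m : ℚ) ≠ 0 := by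
    intro h
    apply hz0
    have : (y : ℚ) = 0 := by rw [hm]; push_cast; rw [h]; ring
    rw [hzq, this]; ring
  have hzm : z = (4 * 4) * ((w : ℚ) * (m : ℚ) ^ 2 * u) := by
    rw [hzq, hm]; push_cast; ring
  rw [hzm, padicValRat.mul (by norm_num) (mul_ne_zero (mul_ne_zero hw0 (pow_ne_zero 2 hm0)) hu0),
    padicValRat.mul (by norm_num) (by norm_num), four_val, padicValRat.mul (mul_ne_zero hw0 (pow_ne_zero 2 hm0)) hu0,
    padicValRat.mul hw0 (pow_ne_zero 2 hm0), padicValRat.pow, odd_val hw, padicValRat.of_int] at hval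
  push_cast at hval
  have : (0 : ℤ) ≤ (padicValInt 2 m : ℤ) := Int.natCast_nonneg _
  omega

end proof

/-- **Main theorem.** (1) For all `D` of the class `Analytic D`. (2) For all `D` of the class `TwoPartSha (twist D)`
(`E_D(ℚ)` is finite, `Ш(E_D/ℚ)[2^∞] ≅ (ℤ/2)²`, `L(E_D, 1) ≠ 0` and the 2-part of the leading-term formula) holds
if and only if `Ker D` and `Golden D`. (3) For each `k ≥ 2` infinitely many such `D` have exactly `k` prime
factors. -/
theorem result :
    (∀ D : ℕ, Family D → Analytic D) ∧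
    (∀ D : ℕ, Family D → (TwoPartSha (twist D) ↔ Ker D ∧ Golden D)) ∧
    ∀ k : ℕ, 2 ≤ k → {D : ℕ | Family D ∧ Ker D ∧ Golden D ∧ D.primeFactors.card = k}.Infinite := by
  refine ⟨fun D hF => analytic hF, fun D hF => ⟨conv hF, fun h => twoPart hF h.1 h.2⟩, fun k hk => ?_⟩
  refine (Pool.Agent.H487.G.infinite_D k hk).mono ?_
  rintro D ⟨h1, h2, h3, h4⟩
  exact ⟨fam_iff.2 h1, h2, (golden_iff h1.sq.ne_zero).2 h3, h4⟩

end Pool.Agent.Results.MP_92892c_nt.TwoPartShaX15
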